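import Pool.Agent.Zk90.KS.Main

/-!
# Kimura-finiteness and cycles which represent the parity projector
-/

set_option autoImplicit false

open CategoryTheory AlgebraicGeometry

universe u v w

namespace Pool.Agent.Zk90.KS

open Pool.Agent.H914 Pool.Agent.H914.VarClass Pool.Agent.H914.VarClass.Obj Pool.Agent.W492.BB
  Pool.Agent.W550.Corr Pool.Agent.TH133 Pool.Agent.TH829.Prime Pool.Agent.TH829.Kim
  Pool.Agent.N174.KN Pool.Agent.Zk90.KG

set_option linter.unusedSectionVars false

section ring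

open Polynomial

/-- the polynomial which is `0` to high order at `0` and `1` to high order at `1` -/
lemma exists_phi (N : ℕ) : ∃ φ w w' s : ℚ[X], φ = X ^ (N + 1) * w ∧
    1 - φ = (1 - X) ^ (N + 1) * w' ∧ φ - X = (X ^ 2 - X) * s := by
  have hcop : IsCoprime (X ^ (N + 1) : ℚ[X]) ((1 - X) ^ (N + 1)) := by
    refine IsCoprime.pow ?_
    exact ⟨1, 1, by ring⟩
  obtain ⟨U, V, h⟩ := hcop
  have h0 : X ∣ (U * X ^ (N + 1) - X : ℚ[X]) := by
    refine dvd_sub (Dvd.dvd.mul_left ?_ _) dvd_rfl
    exact dvd_pow_self _ (by omega)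
  have h1 : (1 - X) ∣ (U * X ^ (N + 1) - X : ℚ[X]) := by
    have e : (U * X ^ (N + 1) - X : ℚ[X]) = (1 - X) - V * (1 - X) ^ (N + 1) := by
      linear_combination h
    rw [e]
    exact dvd_sub dvd_rfl (Dvd.dvd.mul_left (dvd_pow_self _ (by omega)) _)
  have h2 : (X * (1 - X)) ∣ (U * X ^ (N + 1) - X : ℚ[X]) :=
    IsCoprime.mul_dvd ⟨1, 1, by ring⟩ h0 h1
  obtain ⟨s, hs⟩ := h2
  refine ⟨U * X ^ (N + 1), U, V, -s, mul_comm _ _, ?_, ?_⟩
  · linear_combination (-1 : ℚ[X]) * h
  · rw [hs]
    ring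

variable {R : Type w} [Ring R] [Algebra ℚ R] {tr : R →ₗ[ℚ] ℚ} {I J : R → Prop}

/-- the idempotent belonging to an element `a` such that `a ^ 2 - a` is nilpotent -/
lemma exists_eps {a : R} {N : ℕ} (hN : (a * a - a) ^ (N + 1) = 0) : ∃ ε w w' s : R,
    ε * ε = ε ∧ ε = a ^ (N + 1) * w ∧ 1 - ε = (1 - a) ^ (N + 1) * w' ∧
      ε - a = (a * a - a) * s ∧ a ^ (N + 1) = ε * a ^ (N + 1) ∧
      (1 - a) ^ (N + 1) = (1 - ε) * (1 - a) ^ (N + 1) ∧ ε ∈ Algebra.adjoin ℚ {a} := by
  obtain ⟨φ, w, w', s, h1, h2, h3⟩ := exists_phi N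
  have e1 : aeval a φ = a ^ (N + 1) * aeval a w := by
    rw [h1, map_mul, map_pow, aeval_X]
  have e2 : 1 - aeval a φ = (1 - a) ^ (N + 1) * aeval a w' := by
    have h4 := congrArg (aeval a) h2
    rwa [map_sub, map_one, map_mul, map_pow, map_sub, map_one, aeval_X] at h4
  have e3 : aeval a φ - a = (a * a - a) * aeval a s := by
    have h4 := congrArg (aeval a) h3
    rwa [map_sub, aeval_X, map_mul, map_sub, map_pow, aeval_X, sq] at h4
  have hz : aeval a ((X * (1 - X)) ^ (N + 1) : ℚ[X]) = 0 := by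
    have e4 : aeval a (X * (1 - X) : ℚ[X]) = -(a * a - a) := by
      rw [map_mul, map_sub, map_one, aeval_X, mul_sub, mul_one]
      abel
    rw [map_pow, e4, neg_pow, hN, mul_zero]
  have e5 : aeval a φ * aeval a (1 - φ) = 0 := by
    rw [← map_mul, h2]
    have e6 : φ * ((1 - X) ^ (N + 1) * w') = (X * (1 - X)) ^ (N + 1) * (w * w') := by
      conv_lhs => rw [h1]
      rw [mul_pow]
      ring
    rw [e6, map_mul, hz, zero_mul]
  refine ⟨aeval a φ, aeval a w, aeval a w', aeval a s, ?_, e1, e2, e3, ?_, ?_,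
    aeval_mem_adjoin_singleton ℚ a⟩
  · rw [map_sub, map_one, mul_sub, mul_one, sub_eq_zero] at e5
    exact e5.symm
  · have e7 : aeval a ((1 - φ) * X ^ (N + 1)) = 0 := by
      have e8 : (1 - φ) * X ^ (N + 1) = (X * (1 - X)) ^ (N + 1) * w' := by
        rw [h2, mul_pow]
        ring
      rw [e8, map_mul, hz, zero_mul]
    rw [map_mul, map_pow, aeval_X, map_sub, map_one, sub_mul, one_mul, sub_eq_zero] at e7
    exact e7
  · have e7 : aeval a (φ * (1 - X) ^ (N + 1)) = 0 := by
      have e8 : φ * (1 - X) ^ (N + 1) = (X * (1 - X)) ^ (N + 1) * w := by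
        conv_lhs => rw [h1]
        rw [mul_pow]
        ring
      rw [e8, map_mul, hz, zero_mul]
    rw [map_mul, map_pow, map_sub, map_one, aeval_X] at e7
    rw [sub_mul, one_mul, e7, sub_zero]

end ring

variable {k : Type u} [Field k] {𝒱 : VarClass k}

variable {C : TheoryData.{u, v, 0} 𝒱 ℚ} [hC : IsChowProj C] {X Y Z W V : 𝒱.Obj}

include hC

variable {hne : ∀ X : 𝒱.Obj, (1 : C.A X) ≠ 0}

lemma numZero_iff (x : Cor C X) : NumZero C (cl x) ↔ InRad (trC hne X) x := by
  constructor
  · intro h γ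
    have h2 := trC_mul (hne := hne) γ x
    rw [trC_comm] at h2
    exact hasDegree_uniq (hne X) h2 (h _)
  · intro h y
    let γ : Cor C X := tp C y
    have h2 := trC_mul (hne := hne) γ x
    rw [trC_comm, h γ] at h2
    have h4 : tp C (cl γ) = y := tp_tp C y
    rwa [h4] at h2

/-- **Kimura-finiteness and the powers of a cycle representing the parity projector.** -/
theorem num (hne : ∀ X : 𝒱.Obj, (1 : C.A X) ≠ 0) (X : 𝒱.Obj) (n m : ℕ) (a : C.A (X.prod X))
    (ha : C.Deg X.dim a) :
    (∃ e : C.A (X.prod X), C.Deg X.dim e ∧ C.comp e e = e ∧ NumZero C (a - e) ∧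
      AltZero C (n + 1) e ∧ SymZero C (m + 1) (dg C X - e)) ↔
    NumZero C (C.comp a a - a) ∧ ∃ r, AltZero C (n + 1) (power C a r) ∧
      SymZero C (m + 1) (power C (dg C X - a) r) := by
  let A : Cor C X := a
  have hA0 : A ∈ gC C X 0 := by
    rw [mem_gC, add_zero]
    exact ha
  constructor
  · rintro ⟨e₀, -, h2, h3, h4, h5⟩
    let e : Cor C X := e₀
    have hee : e * e = e := h2
    have hJ : InRad (trC hne X) (A - e) := (numZero_iff (hne := hne) (A - e)).1 h3
    have hE : DieC true e (n + 1) := (altZero_iff _ e).1 h4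
    have hO : DieC false (1 - e) (m + 1) := (symZero_iff _ (1 - e)).1 h5
    have hr4 : InRad (trC hne X) (A * A - A) := by
      have e1 : A * A - A = (A - e) * A + e * (A - e) - (A - e) := by
        rw [mul_sub, sub_mul, hee]
        abel
      rw [e1]
      exact ((hJ.mul_right _).add (hJ.mul_left (trC_comm (hne := hne)) _)).sub hJ
    have hnil : ∀ x, InRad (trC hne X) x → IsNilpotent x := fun x hx =>
      isNilpotent_of_inRad (trC_comm (hne := hne)) hee (hE.killed (hne := hne))
        (hO.killed (hne := hne)) hx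
    obtain ⟨N, hN⟩ := hnil _ hr4
    have hN' : (A * A - A) ^ (N + 1) = 0 := by rw [pow_succ, hN, zero_mul]
    obtain ⟨ε, w, w', s, f1, -, -, f4, f5, f6, -⟩ := exists_eps hN'
    have hεe : InRad (trC hne X) (ε - e) := by
      have e1 : ε - e = (A * A - A) * s + (A - e) := by
        rw [← f4]
        abel
      rw [e1]
      exact (hr4.mul_right _).add hJ
    obtain ⟨u, v, huv, -, hconj⟩ := exists_conj (trC_comm (hne := hne)) f1 hee hnil hεe
    have hE' : DieC true ε (n + 1) := by
      rw [hconj]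
      exact hE.conj u v
    have hO' : DieC false (1 - ε) (m + 1) := by
      have e1 : 1 - ε = u * (1 - e) * v := by
        rw [hconj, mul_sub, sub_mul, mul_one, huv]
      rw [e1]
      exact hO.conj u v
    have g1 : a = cl A := rfl
    have g2 : dg C X - cl A = cl (1 - A) := rfl
    refine ⟨(numZero_iff (hne := hne) (A * A - A)).2 hr4, N + 1, ?_, ?_⟩
    · rw [g1, power_eq, altZero_iff, f5]
      exact DieC.mul_right hE' _
    · rw [g1, g2, power_eq, symZero_iff, f6]
      exact DieC.mul_right hO' _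
  · rintro ⟨h1, r, h2, h3⟩
    have hr4 : InRad (trC hne X) (A * A - A) := (numZero_iff (hne := hne) (A * A - A)).1 h1
    have g1 : a = cl A := rfl
    have g2 : dg C X - cl A = cl (1 - A) := rfl
    have hE : DieC true (A ^ r) (n + 1) := by
      rw [g1, power_eq, altZero_iff] at h2
      exact h2
    have hO : DieC false ((1 - A) ^ r) (m + 1) := by
      rw [g1, g2, power_eq, symZero_iff] at h3
      exact h3
    -- `A (1 - A)` is nilpotent
    have hnil : IsNilpotent (A * A - A) := by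
      have hcomm : Commute A (1 - A) := (Commute.one_right A).sub_right (Commute.refl A)
      have e1 : A * A - A = -(A * (1 - A)) := by
        rw [mul_sub, mul_one]
        abel
      have h4 : IsNilpotent ((A * (1 - A)) ^ r) := by
        rw [hcomm.mul_pow]
        have x1 : DieI true (A ^ r * (1 - A) ^ r) := ⟨n + 1, by omega, DieC.mul_right hE _⟩
        have x2 : DieI false (A ^ r * (1 - A) ^ r) := ⟨m + 1, by omega, DieC.mul_left hO _⟩
        exact nil_of_mem (finI_dieI (hne := hne) true) (finI_dieI (hne := hne) false) x1 x2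
      obtain ⟨M, hM⟩ := h4
      refine ⟨r * M, ?_⟩
      rw [e1, neg_pow, pow_mul (A * (1 - A)), hM, mul_zero]
    obtain ⟨N₀, hN₀⟩ := hnil
    set N := N₀ + r with hNdef
    have hN' : (A * A - A) ^ (N + 1) = 0 := pow_eq_zero_of_le (by omega) hN₀
    obtain ⟨ε, w, w', s, f1, f2, f3, f4, -, -, f7⟩ := exists_eps hN'
    have h7 : Algebra.adjoin ℚ {A} ≤ SetLike.GradeZero.subalgebra (gC C X) :=
      Algebra.adjoin_le (by
        rw [Set.singleton_subset_iff]
        exact hA0)
    have hε0 : ε ∈ gC C X 0 := h7 f7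
    have hr : N + 1 = r + (N₀ + 1) := by omega
    refine ⟨cl ε, ?_, f1, ?_, ?_, ?_⟩
    · have h8 := mem_gC.1 hε0
      rwa [add_zero] at h8
    · refine (numZero_iff (hne := hne) (A - ε)).2 ?_
      have e1 : A - ε = (A * A - A) * (-s) := by
        rw [mul_neg, ← f4]
        abel
      rw [e1]
      exact hr4.mul_right _
    · rw [altZero_iff, f2, hr, pow_add, mul_assoc]
      exact DieC.mul_right hE _
    · change SymZero C (m + 1) (cl (1 - ε))
      rw [symZero_iff, f3, hr, pow_add, mul_assoc]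
      exact DieC.mul_right hO _

/-- The comparison with the definition of Kimura-finiteness in the starting files. -/
theorem isKimuraFinite_iff_hasParts (X : 𝒱.Obj) :
    IsKimuraFinite C (ratFam C) X ↔ ∃ n m, HasParts C X n m := by
  constructor
  · rintro ⟨p, hp, h1, ⟨n, hn, h2⟩, ⟨m, hm, h3⟩⟩
    obtain ⟨n, rfl⟩ := Nat.exists_eq_add_of_le' hn
    obtain ⟨m, rfl⟩ := Nat.exists_eq_add_of_le' hm
    exact ⟨n, m, p, hp, sub_eq_zero.1 ((Submodule.mem_bot _).1 h1),
      fun W x y => (Submodule.mem_bot _).1 (h2 W x y),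
      fun W x y => (Submodule.mem_bot _).1 (h3 W x y)⟩
  · rintro ⟨n, m, p, hp, h1, h2, h3⟩
    refine ⟨p, hp, ?_, ⟨n + 1, by omega, fun W x y => ?_⟩, ⟨m + 1, by omega, fun W x y => ?_⟩⟩
    · rw [h1, sub_self]
      exact Submodule.zero_mem _
    · rw [h2 W x y]
      exact Submodule.zero_mem _
    · rw [h3 W x y]
      exact Submodule.zero_mem _

end Pool.Agent.Zk90.KS
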