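import Pool.Agent.TH829.Kim.Defs

/-!
# Self-correspondences with vanishing exterior or symmetric powers: definitions
-/

set_option autoImplicit false

open CategoryTheory AlgebraicGeometry

universe u v

namespace Pool.Agent.Zk90.KS

open Pool.Agent.H914 Pool.Agent.H914.VarClass Pool.Agent.H914.VarClass.Obj Pool.Agent.W492.BB
  Pool.Agent.W550.Corr Pool.Agent.TH133 Pool.Agent.TH829.Prime Pool.Agent.TH829.Kim

variable {k : Type u} [Field k] {𝒱 : VarClass k}

/-- `Λ^n a = 0`, for a self-correspondence `a` of `X`, which may be a sum of cycles of various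
codimensions. For idempotents of degree zero this means `Λ^n (X, a) = 0`. -/
def AltZero (C : TheoryData.{u, v, 0} 𝒱 ℚ) {X : 𝒱.Obj} (n : ℕ) (a : C.A (X.prod X)) : Prop :=
  ∀ (W : 𝒱.Obj) (x y : Fin n → (W ⟶ X)), altPower C a x y = 0

/-- `Sym^n a = 0`, for a self-correspondence `a` of `X`, which may be a sum of cycles of various
codimensions. For idempotents of degree zero this means `Sym^n (X, a) = 0`. -/
def SymZero (C : TheoryData.{u, v, 0} 𝒱 ℚ) {X : 𝒱.Obj} (n : ℕ) (a : C.A (X.prod X)) : Prop :=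
  ∀ (W : 𝒱.Obj) (x y : Fin n → (W ⟶ X)), symPower C a x y = 0

/-- The Chow motive of `X` is the direct sum of a motive `(X, e)` with `Λ^(n+1) (X, e) = 0` and of a
motive `(X, 1 - e)` with `Sym^(m+1) (X, 1 - e) = 0`. `X` is Kimura-finite if this holds for some
`n` and `m`. -/
def HasParts (C : TheoryData.{u, v, 0} 𝒱 ℚ) (X : 𝒱.Obj) (n m : ℕ) : Prop :=
  ∃ e : C.A (X.prod X), C.Deg X.dim e ∧ C.comp e e = e ∧ AltZero C (n + 1) e ∧
    SymZero C (m + 1) (dg C X - e)

/-- The powers of the self-correspondence `g` under composition. -/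
noncomputable def power (C : TheoryData.{u, v, 0} 𝒱 ℚ) {X : 𝒱.Obj} (g : C.A (X.prod X)) :
    ℕ → C.A (X.prod X)
  | 0 => dg C X
  | n + 1 => C.comp g (power C g n)

/-- The value `P(g)` of the polynomial `P` at the self-correspondence `g`. -/
noncomputable def polyAt (C : TheoryData.{u, v, 0} 𝒱 ℚ) {X : 𝒱.Obj} (P : Polynomial ℚ)
    (g : C.A (X.prod X)) : C.A (X.prod X) :=
  P.sum fun i c => c • power C g i

/-- The class `x` on `X × X` (a sum of cycles of various codimensions) is numerically equivalent to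
zero. -/
def NumZero (C : TheoryData.{u, v, 0} 𝒱 ℚ) {X : 𝒱.Obj} (x : C.A (X.prod X)) : Prop :=
  ∀ y : C.A (X.prod X), HasDegree C (x * y) 0

/-- Up to a phantom: the Chow motive of `X` is the direct sum of a motive `(X, e)` with
`Λ^(n+1) (X, e) = 0`, a motive `(X, f)` with `Sym^(m+1) (X, f) = 0` and a motive `(X, 1 - e - f)` which is
numerically equivalent to zero. -/
def HasPartsUpToPhantom (C : TheoryData.{u, v, 0} 𝒱 ℚ) (X : 𝒱.Obj) (n m : ℕ) : Prop :=
  ∃ e f : C.A (X.prod X), C.Deg X.dim e ∧ C.Deg X.dim f ∧ C.comp e e = e ∧ C.comp f f = f ∧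
    C.comp e f = 0 ∧ C.comp f e = 0 ∧ AltZero C (n + 1) e ∧ SymZero C (m + 1) f ∧
    NumZero C (dg C X - (e + f))

end Pool.Agent.Zk90.KS
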