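import Pool.Agent.Zk90.KS.Defs
import Pool.Agent.Zk90.KG.E

/-!
# Kimura-finiteness and decompositions of the diagonal into correspondences with vanishing powers
-/

set_option autoImplicit false

open CategoryTheory AlgebraicGeometry

universe u v w

namespace Pool.Agent.Zk90.KS

open Pool.Agent.H914 Pool.Agent.H914.VarClass Pool.Agent.H914.VarClass.Obj Pool.Agent.W492.BB
  Pool.Agent.W550.Corr Pool.Agent.TH133 Pool.Agent.TH829.Prime Pool.Agent.TH829.Kim
  Pool.Agent.N174.KN Pool.Agent.Zk90.KG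

set_option linter.unusedSectionVars false

section ring

open Polynomial

variable {R : Type w} [Ring R] [Algebra ℚ R] {tr : R →ₗ[ℚ] ℚ} {I J : R → Prop}

/-- Elements which are even and odd are nilpotent. -/
lemma nil_of_mem (hI : FinI tr (-1) I) (hJ : FinI tr 1 J) {x : R} (hx : I x) (hx' : J x) :
    IsNilpotent x := by
  obtain ⟨k, u, hk, h1, h2⟩ := fit (hI.integral (by norm_num) hx)
  obtain ⟨f1, -⟩ := aeval_factor x u hk
  set ε := aeval x (u * X ^ k) with hε
  have hεI : I ε := by
    rw [f1]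
    exact hI.right _ _ hx
  have hεJ : J ε := by
    rw [f1]
    exact hJ.right _ _ hx'
  by_cases h0 : ε = 0
  · exact ⟨k, by rw [h2, h0, mul_zero]⟩
  · exfalso
    obtain ⟨i, hi, hi'⟩ := hI.tr_idem hεI h1 h0
    obtain ⟨j, hj, hj'⟩ := hJ.tr_idem hεJ h1 h0
    rw [hi'] at hj'
    have h3 : (1 : ℚ) ≤ i := by exact_mod_cast hi
    have h4 : (1 : ℚ) ≤ j := by exact_mod_cast hj
    linarith

/-- A decomposition of the unit element gives an idempotent. -/
theorem exists_idem (hI : FinI tr (-1) I) (hJ : FinI tr 1 J) {a b : R} (ha : I a) (hb : J b)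
    (hab : a + b = 1) :
    ∃ e y z : R, e * e = e ∧ e = a * y ∧ 1 - e = b * z ∧ a * y = y * a ∧ b * z = z * b := by
  have hb' : b = 1 - a := by rw [← hab]; abel
  have h1 : IsNilpotent (a * a - a) := by
    refine nil_of_mem hI hJ (hI.sub (hI.left _ _ ha) ha) ?_
    have e1 : a * a - a = -(a * b) := by
      rw [hb', mul_sub, mul_one]
      abel
    rw [e1, ← neg_mul]
    exact hJ.left _ _ hb
  obtain ⟨N, hN⟩ := h1
  obtain ⟨φ, ⟨r, hr⟩, ⟨s, hs⟩⟩ := exists_poly N
  have e1 : φ = X * (1 + (X - 1) * s) := by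
    have : φ = X + (X ^ 2 - X) * s := by rw [← hs]; ring
    rw [this]
    ring
  have e2 : 1 - φ = (1 - X) * (1 + X * s) := by
    rw [e1]
    ring
  refine ⟨aeval a φ, aeval a (1 + (X - 1) * s), aeval a (1 + X * s), ?_, ?_, ?_, ?_, ?_⟩
  · have h2 := congrArg (aeval a) hr
    rw [map_sub, map_pow, map_mul, map_pow, map_sub, map_pow, aeval_X, sq a,
      pow_eq_zero_of_le (Nat.le_succ N) hN, zero_mul, sub_eq_zero, sq] at h2
    exact h2
  · conv_lhs => rw [e1]
    rw [map_mul, aeval_X]
  · have h2 := congrArg (aeval a) e2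
    rw [map_sub, map_one, map_mul, map_sub, map_one, aeval_X] at h2
    rw [hb']
    exact h2
  · have h2 : aeval a (X * (1 + (X - 1) * s)) = aeval a ((1 + (X - 1) * s) * X) := by
      rw [mul_comm]
    rw [map_mul, map_mul, aeval_X] at h2
    exact h2
  · have h2 : aeval a ((1 - X) * (1 + X * s)) = aeval a ((1 + X * s) * (1 - X)) := by
      rw [mul_comm]
    rw [map_mul, map_mul, map_sub, map_one, aeval_X] at h2
    rw [hb']
    exact h2

end ring

variable {k : Type u} [Field k] {𝒱 : VarClass k}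

variable {C : TheoryData.{u, v, 0} 𝒱 ℚ} [hC : IsChowProj C] {X Y Z W V : 𝒱.Obj}

include hC

lemma altZero_iff (n : ℕ) (a : Cor C X) : AltZero C n (cl a) ↔ DieC true a n := by
  constructor
  · intro h W x y
    rw [← altPower_eq]
    exact h W x y
  · intro h W x y
    rw [altPower_eq]
    exact h W x y

lemma symZero_iff (n : ℕ) (a : Cor C X) : SymZero C n (cl a) ↔ DieC false a n := by
  constructor
  · intro h W x y
    rw [← symPower_eq]
    exact h W x y
  · intro h W x y
    rw [symPower_eq]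
    exact h W x y

lemma DieC.mul_right {s : Bool} {a : Cor C X} {n : ℕ} (h : DieC s a n) (y : Cor C X) :
    DieC s (a * y) n := fun W x z => h.rows (fun _ => y) W x z

lemma DieC.mul_left {s : Bool} {a : Cor C X} {n : ℕ} (h : DieC s a n) (y : Cor C X) :
    DieC s (y * a) n := fun W x z => h.cols y W x z

lemma DieC.add' {s : Bool} {f g : Cor C X} {n m : ℕ} (hf : DieC s f (n + 1))
    (hg : DieC s g (m + 1)) : DieC s (f + g) (n + m + 1) := by
  intro W x y
  rw [map_add, gd_add]
  refine Finset.sum_eq_zero fun T _ => ?_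
  by_cases hT : n + 1 ≤ T.card
  · obtain ⟨T', h1, h2⟩ := Finset.exists_subset_card_eq hT
    refine gd_zero_of_rows hf _ (T'.orderEmbOfFin h2).toEmbedding (fun i => ?_) x y
    exact if_pos (h1 (T'.orderEmbOfFin_mem h2 i))
  · have hT' : m + 1 ≤ Tᶜ.card := by
      rw [Finset.card_compl, Fintype.card_fin]
      omega
    obtain ⟨T', h1, h2⟩ := Finset.exists_subset_card_eq hT'
    refine gd_zero_of_rows hg _ (T'.orderEmbOfFin h2).toEmbedding (fun i => ?_) x y
    exact if_neg (Finset.mem_compl.1 (h1 (T'.orderEmbOfFin_mem h2 i)))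

lemma DieC.sum' {s : Bool} {ι : Type*} (T : Finset ι) (f : ι → Cor C X) (n : ι → ℕ)
    (h : ∀ i ∈ T, DieC s (f i) (n i + 1)) : DieC s (∑ i ∈ T, f i) (∑ i ∈ T, n i + 1) := by
  classical
  induction T using Finset.induction_on with
  | empty => exact DieC.zero s (by omega)
  | insert i T hi ih =>
    rw [Finset.sum_insert hi, Finset.sum_insert hi]
    exact DieC.add' (h i (Finset.mem_insert_self _ _))
      (ih fun j hj => h j (Finset.mem_insert_of_mem hj))

/-- A decomposition of the diagonal. -/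
theorem hasParts_of (hne : ∀ X : 𝒱.Obj, (1 : C.A X) ≠ 0) {a b : Cor C X} {n m : ℕ}
    (ha : DieC true a (n + 1)) (hb : DieC false b (m + 1)) (hab : a + b = 1) :
    HasParts C X n m := by
  obtain ⟨e, y, z, h1, h2, h3, -, -⟩ := exists_idem (tr := trC hne X)
    (I := DieI true) (J := DieI false) (finI_dieI (hne := hne) true) (finI_dieI (hne := hne) false)
    ⟨n + 1, by omega, ha⟩ ⟨m + 1, by omega, hb⟩ hab
  have hE : DieC true e (n + 1) := by
    rw [h2]
    exact DieC.mul_right ha y
  have hO : DieC false (1 - e) (m + 1) := by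
    rw [h3]
    exact DieC.mul_right hb z
  obtain ⟨e', he', hee', u, v, huv, -, hconj⟩ := exists_degree_zero (𝒢 := gC C X)
    (tr := trC hne X) (trC_comm (hne := hne)) (trC_of_ne (hne := hne)) h1
    (hE.killed (hne := hne)) (hO.killed (hne := hne))
  have h4 : cl e' ∈ C.gr (X.prod X) X.dim := by
    have := mem_gC.1 he'
    rwa [add_zero] at this
  have hE' : DieC true e' (n + 1) := by
    rw [hconj]
    exact hE.conj u v
  have hO' : DieC false (1 - e') (m + 1) := by
    have e1 : 1 - e' = u * (1 - e) * v := by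
      rw [hconj, mul_sub, sub_mul, mul_one, huv]
    rw [e1]
    exact hO.conj u v
  exact ⟨cl e', h4, hee', (altZero_iff _ _).2 hE', (symZero_iff _ (1 - e')).2 hO'⟩

lemma power_eq (g : Cor C X) (n : ℕ) : power C (cl g) n = cl (g ^ n) := by
  induction n with
  | zero => rfl
  | succ n ih =>
    rw [power, ih, pow_succ, cl_mul]

lemma polyAt_eq (P : Polynomial ℚ) (g : Cor C X) :
    polyAt C P (cl g) = cl (Polynomial.aeval g P) := by
  rw [polyAt, Polynomial.aeval_eq_sum_range, Polynomial.sum_over_range, map_sum]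
  · exact Finset.sum_congr rfl fun i _ => by rw [power_eq, map_smul]
  · intro i
    rw [zero_smul]

/-- **Kimura-finiteness without idempotents.** -/
theorem main (hne : ∀ X : 𝒱.Obj, (1 : C.A X) ≠ 0) (X : 𝒱.Obj) (n m : ℕ) : List.TFAE [
    HasParts C X n m,
    ∃ a b : C.A (X.prod X), AltZero C (n + 1) a ∧ SymZero C (m + 1) b ∧ a + b = dg C X,
    ∃ a b s : C.A (X.prod X), AltZero C (n + 1) a ∧ SymZero C (m + 1) b ∧
      (C.comp (a + b) s = dg C X ∨ C.comp s (a + b) = dg C X),
    ∃ a b : C.A (X.prod X), AltZero C (n + 1) a ∧ SymZero C (m + 1) b ∧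
      ∃ N, power C (dg C X - (a + b)) N = 0,
    ∃ (r t : ℕ) (a : Fin r → C.A (X.prod X)) (b : Fin t → C.A (X.prod X)) (ν : Fin r → ℕ)
      (μ : Fin t → ℕ), (∀ i, AltZero C (ν i + 1) (a i)) ∧ (∀ j, SymZero C (μ j + 1) (b j)) ∧
      ∑ i, ν i = n ∧ ∑ j, μ j = m ∧ ∑ i, a i + ∑ j, b j = dg C X,
    ∃ (g : C.A (X.prod X)) (P Q : Polynomial ℚ), IsCoprime P Q ∧ AltZero C (n + 1) (polyAt C P g) ∧
      SymZero C (m + 1) (polyAt C Q g)] := by
  tfae_have 1 → 2 := by
    rintro ⟨e, -, -, h1, h2⟩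
    exact ⟨e, dg C X - e, h1, h2, add_sub_cancel e (dg C X)⟩
  tfae_have 2 → 5 := by
    rintro ⟨a, b, ha, hb, hab⟩
    refine ⟨1, 1, fun _ => a, fun _ => b, fun _ => n, fun _ => m, fun _ => ha, fun _ => hb, ?_, ?_,
      ?_⟩
    · simp
    · simp
    · simpa using hab
  tfae_have 2 → 4 := by
    rintro ⟨a, b, ha, hb, hab⟩
    refine ⟨a, b, ha, hb, 1, ?_⟩
    have h1 : dg C X - (a + b) = cl (0 : Cor C X) := by
      rw [hab, sub_self, map_zero]
    rw [h1, power_eq, pow_one, map_zero]
  tfae_have 4 → 3 := by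
    rintro ⟨a, b, ha, hb, N, hN⟩
    let A : Cor C X := a
    let B : Cor C X := b
    have h1 : power C (cl (1 - (A + B))) N = 0 := hN
    rw [power_eq] at h1
    have h2 : IsNilpotent (1 - (A + B)) := ⟨N, cl_inj (by rw [h1, map_zero])⟩
    obtain ⟨U, hU⟩ := h2.isUnit_one_sub
    have h3 : (U : Cor C X) = A + B := by rw [hU]; abel
    refine ⟨a, b, cl (↑U⁻¹ : Cor C X), ha, hb, Or.inr ?_⟩
    have h4 : (A + B) * (↑U⁻¹ : Cor C X) = 1 := by rw [← h3, Units.mul_inv]
    exact h4
  tfae_have 3 → 1 := by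
    rintro ⟨a, b, s, ha, hb, hs⟩
    let A : Cor C X := a
    let B : Cor C X := b
    let S : Cor C X := s
    have hA : DieC true A (n + 1) := (altZero_iff _ A).1 ha
    have hB : DieC false B (m + 1) := (symZero_iff _ B).1 hb
    rcases hs with hs | hs
    · have h1 : S * (A + B) = 1 := hs
      rw [mul_add] at h1
      exact hasParts_of hne (DieC.mul_left hA S) (DieC.mul_left hB S) h1
    · have h1 : (A + B) * S = 1 := hs
      rw [add_mul] at h1
      exact hasParts_of hne (DieC.mul_right hA S) (DieC.mul_right hB S) h1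
  tfae_have 5 → 1 := by
    rintro ⟨r, t, a, b, ν, μ, ha, hb, rfl, rfl, hab⟩
    let A : Fin r → Cor C X := a
    let B : Fin t → Cor C X := b
    have hA : DieC true (∑ i, A i) (∑ i, ν i + 1) :=
      DieC.sum' _ _ _ fun i _ => (altZero_iff _ (A i)).1 (ha i)
    have hB : DieC false (∑ i, B i) (∑ i, μ i + 1) :=
      DieC.sum' _ _ _ fun i _ => (symZero_iff _ (B i)).1 (hb i)
    exact hasParts_of hne hA hB hab
  tfae_have 1 → 6 := by
    rintro ⟨e, -, -, h1, h2⟩
    let E : Cor C X := e
    refine ⟨e, Polynomial.X, 1 - Polynomial.X, ?_, ?_, ?_⟩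
    · exact ⟨1, 1, by ring⟩
    · have h3 : polyAt C Polynomial.X (cl E) = cl E := by
        rw [polyAt_eq, Polynomial.aeval_X]
      change AltZero C (n + 1) (polyAt C Polynomial.X (cl E))
      rw [h3]
      exact h1
    · have h3 : polyAt C (1 - Polynomial.X) (cl E) = cl (1 - E) := by
        rw [polyAt_eq, map_sub, map_one, Polynomial.aeval_X]
      change SymZero C (m + 1) (polyAt C (1 - Polynomial.X) (cl E))
      rw [h3]
      exact h2
  tfae_have 6 → 1 := by
    rintro ⟨g, P, Q, ⟨U, V, hUV⟩, h1, h2⟩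
    let G : Cor C X := g
    have h3 : AltZero C (n + 1) (polyAt C P (cl G)) := h1
    have h4 : SymZero C (m + 1) (polyAt C Q (cl G)) := h2
    rw [polyAt_eq, altZero_iff] at h3
    rw [polyAt_eq, symZero_iff] at h4
    have h5 := congrArg (Polynomial.aeval G) hUV
    rw [map_add, map_mul, map_mul, map_one] at h5
    exact hasParts_of hne (DieC.mul_left h3 _) (DieC.mul_left h4 _) h5
  tfae_finish

end Pool.Agent.Zk90.KS
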