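import Pool.Agent.Zk90.KS.Num

/-!
# Kimura-finiteness up to phantoms
-/

set_option autoImplicit false

open CategoryTheory AlgebraicGeometry

universe u v w

namespace Pool.Agent.Zk90.KS

open Pool.Agent.H914 Pool.Agent.H914.VarClass Pool.Agent.H914.VarClass.Obj Pool.Agent.W492.BB
  Pool.Agent.W550.Corr Pool.Agent.TH133 Pool.Agent.TH829.Prime Pool.Agent.TH829.Kim
  Pool.Agent.N174.KN Pool.Agent.Zk90.KG

set_option linter.unusedSectionVars false

variable {k : Type u} [Field k] {𝒱 : VarClass k}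

variable {C : TheoryData.{u, v, 0} 𝒱 ℚ} [hC : IsChowProj C] {X Y Z W V : 𝒱.Obj}

include hC

variable {hne : ∀ X : 𝒱.Obj, (1 : C.A X) ≠ 0}

lemma inRad_left {a x : Cor C X} (h : InRad (trC hne X) x) : InRad (trC hne X) (a * x) :=
  h.mul_left (trC_comm (hne := hne)) a

/-- even and odd elements are numerically trivial -/
lemma inRad_of_mem {x : Cor C X} (h : DieI true x) (h' : DieI false x) :
    InRad (trC hne X) x := by
  intro γ
  have h1 : DieI true (γ * x) := h.left γ
  have h2 : DieI false (γ * x) := h'.left γ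
  have h3 := (finI_dieI (hne := hne) true).tr_of_nil h1
    (nil_of_mem (finI_dieI (hne := hne) true) (finI_dieI (hne := hne) false) h1 h2)
  first
    | exact h3
    | (rw [trC_comm]; exact h3)

lemma nil_of_inRad {s : Bool} {x : Cor C X} (h : DieI s x) (h' : InRad (trC hne X) x) :
    IsNilpotent x := by
  refine (finI_dieI (hne := hne) s).nil_of_tr (by cases s <;> norm_num [eta]) h fun k hk => ?_
  obtain ⟨j, rfl⟩ := Nat.exists_eq_add_of_le' hk
  have h1 := h' (x ^ j)
  rw [pow_succ]
  first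
    | exact h1
    | (rw [trC_comm]; exact h1)

/-- lifting an element which is idempotent modulo numerically trivial ones -/
lemma lift_num {s : Bool} {n : ℕ} {a : Cor C X} (ha : DieC s a (n + 1)) (h0 : a ∈ gC C X 0)
    (h : InRad (trC hne X) (a * a - a)) : ∃ e w : Cor C X, e * e = e ∧ e = a * w ∧
      e ∈ gC C X 0 ∧ InRad (trC hne X) (e - a) := by
  have h1 : IsNilpotent (a * a - a) := by
    refine nil_of_inRad (hne := hne) (s := s) ?_ h
    have h2 : a * a - a = a * (a - 1) := by rw [mul_sub, mul_one]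
    rw [h2]
    exact DieI.right _ ⟨n + 1, by omega, ha⟩
  obtain ⟨N, hN⟩ := h1
  have hN' : (a * a - a) ^ (N + 1) = 0 := by rw [pow_succ, hN, zero_mul]
  obtain ⟨ε, w, w', t, f1, f2, -, f4, -, -, f7⟩ := exists_eps hN'
  have h7 : Algebra.adjoin ℚ {a} ≤ SetLike.GradeZero.subalgebra (gC C X) :=
    Algebra.adjoin_le (by
      rw [Set.singleton_subset_iff]
      exact h0)
  refine ⟨ε, a ^ N * w, f1, ?_, h7 f7, ?_⟩
  · rw [f2, pow_succ', mul_assoc]
  · rw [f4]
    exact h.mul_right _

lemma zero_mul_mem {a b : Cor C X} (ha : a ∈ gC C X 0) (hb : b ∈ gC C X 0) :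
    a * b ∈ gC C X 0 := by
  have := SetLike.GradedMul.mul_mem (A := gC C X) ha hb
  rwa [add_zero] at this

/-- **The decomposition up to a phantom.** -/
theorem decompose_num {n m : ℕ} {a b : Cor C X} (ha : DieC true a (n + 1))
    (hb : DieC false b (m + 1)) (ha0 : a ∈ gC C X 0) (hb0 : b ∈ gC C X 0)
    (h : InRad (trC hne X) (1 - (a + b))) : ∃ e f : Cor C X, e * e = e ∧ f * f = f ∧
      e * f = 0 ∧ f * e = 0 ∧ e ∈ gC C X 0 ∧ f ∈ gC C X 0 ∧ DieC true e (n + 1) ∧
      DieC false f (m + 1) ∧ InRad (trC hne X) (1 - (e + f)) := by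
  have hab : InRad (trC hne X) (a * b) :=
    inRad_of_mem (DieI.right b ⟨n + 1, by omega, ha⟩) (DieI.left a ⟨m + 1, by omega, hb⟩)
  have hba : InRad (trC hne X) (b * a) :=
    inRad_of_mem (DieI.left b ⟨n + 1, by omega, ha⟩) (DieI.right a ⟨m + 1, by omega, hb⟩)
  have h1 : InRad (trC hne X) (a * a - a) := by
    have e1 : a * a - a = -(a * (1 - (a + b))) - a * b := by noncomm_ring
    rw [e1]
    exact ((inRad_left h).neg).sub hab
  obtain ⟨e, w, e1, e2, e3, e4⟩ := lift_num (hne := hne) ha ha0 h1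
  have h2 : InRad (trC hne X) ((1 - e) * b - b) := by
    have e5 : (1 - e) * b - b = -((e - a) * b) - a * b := by noncomm_ring
    rw [e5]
    exact ((e4.mul_right b).neg).sub hab
  have h3 : InRad (trC hne X) (b * b - b) := by
    have e5 : b * b - b = -(b * (1 - (a + b))) - b * a := by noncomm_ring
    rw [e5]
    exact ((inRad_left h).neg).sub hba
  have hb' : DieC false ((1 - e) * b) (m + 1) := DieC.mul_left hb _
  have h10 : (1 : Cor C X) ∈ gC C X 0 := SetLike.GradedOne.one_mem
  have h1e : (1 - e) ∈ gC C X 0 := sub_mem h10 e3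
  have hb0' : (1 - e) * b ∈ gC C X 0 := zero_mul_mem h1e hb0
  have h4 : InRad (trC hne X) ((1 - e) * b * ((1 - e) * b) - (1 - e) * b) := by
    have e5 : (1 - e) * b * ((1 - e) * b) - (1 - e) * b =
        (1 - e) * b * ((1 - e) * b - b) + (1 - e) * (b * b - b) := by noncomm_ring
    rw [e5]
    exact (inRad_left h2).add (inRad_left h3)
  obtain ⟨f, v, f1, f2, f3, f4⟩ := lift_num (hne := hne) hb' hb0' h4
  have hef : e * f = 0 := by
    rw [f2, ← mul_assoc, ← mul_assoc, mul_sub, mul_one, e1, sub_self, zero_mul, zero_mul]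
  have hf : DieC false f (m + 1) := by
    rw [f2]
    exact DieC.mul_right hb' _
  refine ⟨e, f * (1 - e), e1, ?_, ?_, ?_, e3, zero_mul_mem f3 h1e, ?_, DieC.mul_right hf _, ?_⟩
  · have : f * (1 - e) * (f * (1 - e)) = f * f * (1 - e) - f * (e * f) * (1 - e) := by
      noncomm_ring
    rw [this, hef, f1, mul_zero, zero_mul, sub_zero]
  · rw [← mul_assoc, hef, zero_mul]
  · rw [mul_assoc, sub_mul, one_mul, e1, sub_self, mul_zero]
  · rw [e2]
    exact DieC.mul_right ha _
  · have hfb : InRad (trC hne X) (f - b) := by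
      have e5 : f - b = (f - (1 - e) * b) + ((1 - e) * b - b) := by abel
      rw [e5]
      exact f4.add h2
    have hfe : InRad (trC hne X) (f * e) := by
      have e5 : f * e = (f - b) * e + b * (e - a) + b * a := by noncomm_ring
      rw [e5]
      exact ((hfb.mul_right e).add (inRad_left e4)).add hba
    have e5 : 1 - (e + f * (1 - e)) = (1 - (a + b)) - (e - a) - (f - b) + f * e := by
      rw [mul_sub, mul_one]
      abel
    rw [e5]
    exact ((h.sub e4).sub hfb).add hfe

lemma numZero_iff' (x : Cor C X) : NumZero C (cl x) ↔ InRad (trC hne X) x := numZero_iff x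

/-- **Kimura-finiteness up to phantoms is a numerical condition.** -/
theorem phantom (hne : ∀ X : 𝒱.Obj, (1 : C.A X) ≠ 0) (X : 𝒱.Obj) (n m : ℕ) :
    (HasPartsUpToPhantom C X n m ↔
      ∃ a b : C.A (X.prod X), C.Deg X.dim a ∧ C.Deg X.dim b ∧ AltZero C (n + 1) a ∧
        SymZero C (m + 1) b ∧ NumZero C (dg C X - (a + b))) ∧
    (HasParts C X n m ↔ HasPartsUpToPhantom C X n m ∧
      ∀ p : C.A (X.prod X), C.Deg X.dim p → C.comp p p = p → NumZero C p → p = 0) := by
  have hdeg : ∀ a : Cor C X, a ∈ gC C X 0 ↔ C.Deg X.dim (cl a) := by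
    intro a
    rw [mem_gC, add_zero]
  have key : ∀ a b : Cor C X, NumZero C (dg C X - (cl a + cl b)) ↔
      InRad (trC hne X) (1 - (a + b)) := fun a b => numZero_iff (hne := hne) (1 - (a + b))
  refine ⟨⟨?_, ?_⟩, ?_, ?_⟩
  · rintro ⟨e, f, h1, h2, -, -, -, -, h7, h8, h9⟩
    exact ⟨e, f, h1, h2, h7, h8, h9⟩
  · rintro ⟨a, b, ha0, hb0, ha, hb, h⟩
    let A : Cor C X := a
    let B : Cor C X := b
    obtain ⟨e, f, h1, h2, h3, h4, h5, h6, h7, h8, h9⟩ := decompose_num (hne := hne)
      (a := A) (b := B) ((altZero_iff _ A).1 ha) ((symZero_iff _ B).1 hb)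
      ((hdeg A).2 ha0) ((hdeg B).2 hb0) ((key A B).1 h)
    exact ⟨cl e, cl f, (hdeg e).1 h5, (hdeg f).1 h6, h1, h2, h4, h3, (altZero_iff _ e).2 h7,
      (symZero_iff _ f).2 h8, (key e f).2 h9⟩
  · rintro ⟨e, h1, h2, h3, h4⟩
    let E : Cor C X := e
    have hE : E * E = E := h2
    have hE1 : DieC true E (n + 1) := (altZero_iff _ E).1 h3
    have hE2 : DieC false (1 - E) (m + 1) := (symZero_iff _ (1 - E)).1 h4
    have hE0 : E ∈ gC C X 0 := (hdeg E).2 h1
    have h10 : (1 : Cor C X) ∈ gC C X 0 := SetLike.GradedOne.one_mem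
    refine ⟨⟨cl E, cl (1 - E), h1, (hdeg (1 - E)).1 (sub_mem h10 hE0), h2, ?_, ?_, ?_, h3, h4,
      ?_⟩, ?_⟩
    · change (1 - E) * (1 - E) = 1 - E
      rw [mul_sub, mul_one, sub_mul, one_mul, hE, sub_self, sub_zero]
    · change (1 - E) * E = 0
      rw [sub_mul, one_mul, hE, sub_self]
    · change E * (1 - E) = 0
      rw [mul_sub, mul_one, hE, sub_self]
    · rw [key]
      have e1 : (1 - (E + (1 - E)) : Cor C X) = 0 := by abel
      rw [e1]
      intro γ
      simp
    · intro p hp0 hp hn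
      let P : Cor C X := p
      have hP : P * P = P := hp
      have hr : InRad (trC hne X) P := (numZero_iff (hne := hne) P).1 hn
      have hnil : IsNilpotent P := isNilpotent_of_inRad (trC_comm (hne := hne)) hE
        (hE1.killed (hne := hne)) (hE2.killed (hne := hne)) hr
      obtain ⟨N, hN⟩ := hnil
      have c8 : P ^ (N + 1) = P := by
        clear hN
        induction N with
        | zero => rw [zero_add, pow_one]
        | succ N ih => rw [pow_succ, ih, hP]
      rw [pow_succ, hN, zero_mul] at c8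
      exact c8.symm
  · rintro ⟨⟨e, f, h1, h2, h3, h4, h5, h6, h7, h8, h9⟩, h0⟩
    let E : Cor C X := e
    let G : Cor C X := f
    have hE : E * E = E := h3
    have hG : G * G = G := h4
    have hGE : G * E = 0 := h5
    have hEG : E * G = 0 := h6
    have h10 : (1 : Cor C X) ∈ gC C X 0 := SetLike.GradedOne.one_mem
    have hz : (1 - (E + G) : Cor C X) = 0 := by
      refine h0 (cl (1 - (E + G))) ?_ ?_ ?_
      · exact (hdeg _).1 (sub_mem h10 (add_mem ((hdeg E).2 h1) ((hdeg G).2 h2)))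
      · change (1 - (E + G)) * (1 - (E + G)) = 1 - (E + G)
        have e1 : (1 - (E + G)) * (1 - (E + G)) = 1 - (E + G) - (E + G) +
            (E * E + E * G + G * E + G * G) := by noncomm_ring
        rw [e1, hE, hG, hGE, hEG]
        abel
      · exact h9
    refine hasParts_of hne (a := E) (b := G) ((altZero_iff _ E).1 h7) ((symZero_iff _ G).1 h8) ?_
    exact (sub_eq_zero.1 hz).symm

end Pool.Agent.Zk90.KS
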